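import Pool.Agent.Q19.ExtR

set_option autoImplicit false

open Pool.Agent.Q19.Ext Pool.Agent.Q19.ExtR

namespace Pool.Agent.Results.MP_84fce2_co.Finiteness

/-- The distinguishing extension number of the Euclidean plane under its full isometry group is
finite. -/
theorem result : extNum (isometryGroup EPlane) EPlane < ⊤ := by
  rw [extNum_E2]
  exact ENat.coe_lt_top 7

end Pool.Agent.Results.MP_84fce2_co.Finiteness
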